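import Pool.Agent.helper60.XP.SpecD

/-!
xp:SWZ, Schwarz lemma for a double zero.
-/

set_option autoImplicit false

open Complex Metric Set Filter Topology MeasureTheory

noncomputable section

namespace XPD

theorem SWZ : SWZ_stmt := by
  intro h R M hR hM hd h0 h1 hb
  have hR0 : (0 : ℂ) ∈ ball (0 : ℂ) R := mem_ball_self hR
  have hnb : ball (0 : ℂ) R ∈ 𝓝 (0 : ℂ) := isOpen_ball.mem_nhds hR0
  have hg : DifferentiableOn ℂ (dslope h 0) (ball 0 R) :=
    (Complex.differentiableOn_dslope hnb).2 hd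
  have hg0 : dslope h 0 0 = 0 := by rw [dslope_same, h1]
  have hval : ∀ x : ℂ, h x = x * dslope h 0 x := by
    intro x
    have := sub_smul_dslope h 0 x
    rw [sub_zero, h0, sub_zero, smul_eq_mul] at this
    exact this.symm
  have hgb : ∀ x ∈ ball (0 : ℂ) R, ‖dslope h 0 x‖ ≤ M := by
    intro x hx
    rcases eq_or_ne x 0 with rfl | hne
    · rw [hg0, norm_zero]; exact hM
    · have h2 := hb x hx
      rw [hval x, norm_mul, mul_comm] at h2
      exact le_of_mul_le_mul_right h2 (norm_pos_iff.2 hne)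
  have hmaps : MapsTo (dslope h 0) (ball 0 R) (closedBall (dslope h 0 0) M) := by
    intro x hx
    rw [hg0, mem_closedBall_zero_iff]
    exact hgb x hx
  have key : ∀ x ∈ ball (0 : ℂ) R, ‖h x‖ ≤ M * ‖x‖ ^ 2 / R := by
    intro x hx
    have h3 := Complex.norm_dslope_le_div_of_mapsTo_ball hg hmaps hx
    have h4 : dslope h 0 x = x * dslope (dslope h 0) 0 x := by
      have := sub_smul_dslope (dslope h 0) 0 x
      rw [sub_zero, hg0, sub_zero, smul_eq_mul] at this
      exact this.symm
    rw [hval x, h4, norm_mul, norm_mul]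
    calc ‖x‖ * (‖x‖ * ‖dslope (dslope h 0) 0 x‖) ≤ ‖x‖ * (‖x‖ * (M / R)) := by gcongr
      _ = M * ‖x‖ ^ 2 / R := by ring
  refine ⟨key, ?_⟩
  have hs : 0 < R / 2 := by positivity
  have hdc : DiffContOnCl ℂ h (ball 0 (R / 2)) := by
    refine DifferentiableOn.diffContOnCl ?_
    refine hd.mono ?_
    rw [closure_ball _ hs.ne']
    exact closedBall_subset_ball (by linarith)
  have h5 : ∀ z ∈ sphere (0 : ℂ) (R / 2), ‖h z‖ ≤ M * (R / 2) ^ 2 / R := by
    intro z hz
    have hz' : ‖z‖ = R / 2 := by simpa using hz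
    have := key z (by rw [mem_ball_zero_iff, hz']; linarith)
    rwa [hz'] at this
  have h6 := Complex.norm_iteratedDeriv_le_of_forall_mem_sphere_norm_le 2 hs hdc h5
  rw [iteratedDeriv_succ, iteratedDeriv_one] at h6
  refine h6.trans (le_of_eq ?_)
  have : ((2 : ℕ).factorial : ℝ) = 2 := by norm_num [Nat.factorial]
  rw [this]
  field_simp

end XPD
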